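import Pool.Agent.Y792.EP.Main

/-!
# Products of powers of elliptic curves: no zeros and poles on the edge

`F` is a number field (`ℚ` in the problem), `E_1, …, E_k` are elliptic curves over `F`, `X` is a product of
powers of the `E_j` and `Y` a variety of dimension zero.  The Hasse-Weil `L`-functions of `X × Y` are products
of shifted `L`-functions of the motives `M = Sym^{a_1} h¹(E_1) ⊗ … ⊗ Sym^{a_k} h¹(E_k) ⊗ ρ`, `ρ` an irreducible
Artin representation.  The theorem is about their zeros and poles on the edge `Re s = w/2 + 1`,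
`w = a_1 + … + a_k`, of the half-plane of absolute convergence.  The Sato-Tate law for the single curves and
for pairs of them is known for totally real `F`; no joint law of three of them, and no joint law of
Frobenius angles and Frobenius elements of non-solvable extensions is known.
-/

set_option autoImplicit false

namespace Pool.Agent.Results.MP_7193be_nt.EllipticProductsEdge

open Complex Filter Topology NumberField IsDedekindDomain Polynomial

/-- The number of solutions of the affine Weierstrass equation of `V` with coordinates in `R`. -/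
noncomputable def affineCount {R : Type} [CommRing R] (V : WeierstrassCurve R) : ℕ :=
  Nat.card {P : R × R // P.2 ^ 2 + V.a₁ * P.1 * P.2 + V.a₃ * P.2 =
    P.1 ^ 3 + V.a₂ * P.1 ^ 2 + V.a₄ * P.1 + V.a₆}

section
variable {F : Type} [Field F] [NumberField F]

/-- `q_v`, the number of elements of the residue field of `v`. -/
noncomputable def q (v : HeightOneSpectrum (𝓞 F)) : ℕ := Ideal.absNorm v.asIdeal

/-- `a_v = q_v + 1 - #E(k_v)`, `k_v` the residue field of `v`; there is one point at infinity. -/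
noncomputable def frobTrace (W : WeierstrassCurve (𝓞 F)) (v : HeightOneSpectrum (𝓞 F)) : ℤ :=
  (q v : ℤ) + 1 - ((affineCount (W.map (Ideal.Quotient.mk v.asIdeal)) : ℤ) + 1)

/-- `cos θ_v`, where `a_v = 2 √q_v cos θ_v`. -/
noncomputable def cosAngle (W : WeierstrassCurve (𝓞 F)) (v : HeightOneSpectrum (𝓞 F)) : ℝ :=
  (frobTrace W v : ℝ) / (2 * Real.sqrt (q v))

/-- `U_m(cos θ_v) = sin((m+1) θ_v) / sin θ_v`: the normalised trace of Frobenius on `Sym^m h¹(E)`. -/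
noncomputable def chi (m : ℕ) (W : WeierstrassCurve (𝓞 F)) (v : HeightOneSpectrum (𝓞 F)) : ℝ :=
  (Chebyshev.U ℝ m).eval (cosAngle W v)

/-- The mean value of `f` with the weights `q_v^(-1-ε)`, `ε → 0`, is zero. -/
def MeanZero (f : HeightOneSpectrum (𝓞 F) → ℝ) : Prop :=
  Tendsto (fun ε : ℝ => (∑' v, f v / (q v : ℝ) ^ (1 + ε)) / Real.log (1 / ε)) (𝓝[>] 0) (𝓝 0)

/-- The angles `θ_v` of `E` are equidistributed for the Sato-Tate law (in this mean). -/
def SatoTate (W : WeierstrassCurve (𝓞 F)) : Prop := ∀ m : ℕ, m ≠ 0 → MeanZero (chi m W)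

/-- The pairs of angles of `E` and `E'` are equidistributed for the product of the Sato-Tate laws. -/
def JointSatoTate (W W' : WeierstrassCurve (𝓞 F)) : Prop :=
  ∀ m n : ℕ, (m ≠ 0 ∨ n ≠ 0) → MeanZero fun v => chi m W v * chi n W' v

/-- `σ` is a Frobenius element at the prime `v` of `F`: there is a maximal ideal `Q` above `v` of the
ring of all algebraic integers with `σ x ≡ x ^ q_v` modulo `Q` for all `x`. -/
def IsFrobenius (v : HeightOneSpectrum (𝓞 F)) (σ : Gal(AlgebraicClosure F/F)) : Prop :=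
  ∃ Q : Ideal (𝓞 (AlgebraicClosure F)), Q.IsMaximal ∧
    Q.comap (algebraMap (𝓞 F) (𝓞 (AlgebraicClosure F))) = v.asIdeal ∧
    ∀ x : 𝓞 (AlgebraicClosure F), σ • x - x ^ q v ∈ Q

/-- `ρ` is an Artin representation of `F`: it is trivial on an open subgroup of `Gal(F̄/F)`. -/
def IsArtin {n : ℕ} (ρ : Representation ℂ Gal(AlgebraicClosure F/F) (Fin n → ℂ)) : Prop :=
  ∃ U : Subgroup Gal(AlgebraicClosure F/F),
    IsOpen (U : Set Gal(AlgebraicClosure F/F)) ∧ ∀ u ∈ U, ρ u = 1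

variable {k : ℕ}

/-- The polynomials `B v` are the Euler factors of `Sym^{a_1} h¹(E_1) ⊗ … ⊗ Sym^{a_k} h¹(E_k) ⊗ ρ` at all but
finitely many primes `v`: if `1 - a_{j,v} T + q_v T² = (1 - α_j T)(1 - β_j T)`, then
`B_v(z) = ∏_{0 ≤ i_j ≤ a_j} det(1 - (∏_j α_j^{i_j} β_j^{a_j - i_j}) z ρ(Frob_v⁻¹))`. -/
def IsEulerFactor (W : Fin k → WeierstrassCurve (𝓞 F)) (a : Fin k → ℕ) {n : ℕ}
    (ρ : Representation ℂ Gal(AlgebraicClosure F/F) (Fin n → ℂ))
    (B : HeightOneSpectrum (𝓞 F) → ℂ[X]) : Prop :=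
  ∀ᶠ v in cofinite, ∀ σ : Gal(AlgebraicClosure F/F), IsFrobenius v σ → ∀ α β : Fin k → ℂ,
    (∀ j, α j + β j = (frobTrace (W j) v : ℂ) ∧ α j * β j = (q v : ℂ)) → ∀ z : ℂ,
    (B v).eval z = ∏ i ∈ Fintype.piFinset (fun j => Finset.range (a j + 1)),
      LinearMap.det (1 - ((∏ j, α j ^ i j * β j ^ (a j - i j)) * z) • ρ σ⁻¹)

/-- The Euler product `∏_v B_v(q_v^{-s})⁻¹`. -/
noncomputable def eulerProduct (B : HeightOneSpectrum (𝓞 F) → ℂ[X]) (s : ℂ) : ℂ :=
  ∏' v : HeightOneSpectrum (𝓞 F), ((B v).eval ((q v : ℂ) ^ (-s)))⁻¹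

/-- `(a_1 + … + a_k) / 2`, half the weight. -/
noncomputable def halfWeight (a : Fin k → ℕ) : ℝ := ((∑ j, a j : ℕ) : ℝ) / 2

/-- The point `w/2 + 1 + iτ` of the edge, `w = a_1 + … + a_k`. -/
noncomputable def edge (a : Fin k → ℕ) (τ : ℝ) : ℂ := (halfWeight a : ℂ) + 1 + τ * I

/-- `log |L(w/2 + 1 + iτ + ε)| / log (1/ε)`. -/
noncomputable def size (a : Fin k → ℕ) (B : HeightOneSpectrum (𝓞 F) → ℂ[X]) (τ ε : ℝ) : ℝ :=
  Real.log ‖eulerProduct B (edge a τ + ε)‖ / Real.log (1 / ε)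

/-- `Λ` is a meromorphic continuation of the Euler product to a neighbourhood of the edge point. -/
def Continues (a : Fin k → ℕ) (B : HeightOneSpectrum (𝓞 F) → ℂ[X]) (τ : ℝ) (Λ : ℂ → ℂ) : Prop :=
  MeromorphicAt Λ (edge a τ) ∧
    ∀ᶠ s in 𝓝 (edge a τ), halfWeight a + 1 < s.re → Λ s = eulerProduct B s

/-- The number of the curves `E_j` that occur in the motive. -/
def curves (a : Fin k → ℕ) : ℕ := (Finset.univ.filter fun j => a j ≠ 0).card

/-- The `L`-functions of all `Sym^{b_1} h¹(E_1) ⊗ … ⊗ Sym^{b_k} h¹(E_k)` in which at least three, but only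
some, not all, of the curves occurring in `a` occur, have meromorphic continuations to a neighbourhood of
the real point `w/2 + 1` of their edge. -/
def FewerContinue (W : Fin k → WeierstrassCurve (𝓞 F)) (a : Fin k → ℕ) : Prop :=
  ∀ b : Fin k → ℕ, (∀ j, a j = 0 → b j = 0) → (∃ j, a j ≠ 0 ∧ b j = 0) → 3 ≤ curves b →
    ∃ (B : HeightOneSpectrum (𝓞 F) → ℂ[X]) (Λ : ℂ → ℂ),
      IsEulerFactor W b (Representation.trivial ℂ Gal(AlgebraicClosure F/F) (Fin 1 → ℂ)) B ∧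
      (∀ v, (B v).eval ((q v : ℂ) ^ (-edge b 0)) ≠ 0) ∧ Continues b B 0 Λ

open Pool.Agent.Y792.EP Pool.Agent.TH553.RS Pool.Agent.W540.BE in
/-- mean values in the two normalisations -/
theorem conv {φ ψ : HeightOneSpectrum (𝓞 F) → ℝ} {C : ℝ} (hφ : ∀ v, |φ v| ≤ C)
    (h : ∀ᶠ v in cofinite, φ v = ψ v) (hm : MeanZero ψ) :
    Tendsto (qt (nm F) φ) (𝓝[>] 0) (𝓝 0) := by
  have hN : NormSys (nm F) := (sysF F).sys
  obtain ⟨D, hD⟩ := Pool.Agent.Y677.SM.EP_change hN hφ h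
  refine (Pool.Agent.Y677.SM.norm_change hD (Pool.Agent.Y677.SM.EP_lam_bound hφ)).2 ?_
  refine hm.congr fun ε => ?_
  congr 1
  unfold EP
  refine tsum_congr fun v => ?_
  have h0 : (0 : ℝ) ≤ nm F v := Nat.cast_nonneg _
  rw [Real.rpow_neg h0, div_eq_mul_inv]
  rfl

open Pool.Agent.Y792.EP in
theorem chi_eq (W : WeierstrassCurve (𝓞 F)) (hΔ : W.Δ ≠ 0) (m : ℕ) :
    ∀ᶠ v in cofinite, (Uc m).eval (cosv W v) = chi m W v := by
  obtain ⟨α, hα⟩ := roots W hΔ
  filter_upwards [hα] with v hv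
  unfold cosv
  rw [if_pos hv.2.2.2]
  rfl

/-- **Products of powers of elliptic curves: no zeros and poles on the edge.**
Let `E_1, …, E_k` be elliptic curves over a number field `F` that satisfy the Sato-Tate law, any two of
them jointly.  Let `a_1, …, a_k ≥ 0` be not all zero, `ρ` an irreducible Artin representation of `F` of
dimension `n` and `L` the Euler product of `Sym^{a_1} h¹(E_1) ⊗ … ⊗ Sym^{a_k} h¹(E_k) ⊗ ρ`, with arbitrary
polynomials as factors at finitely many primes (not zero at the point considered).  Suppose that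

* at most two curves occur (`a_j ≠ 0` for at most two `j`), with no condition on `ρ`; or
* `n = 1` and at most four curves occur; or
* `n = 1` and the (untwisted) `L`-functions with fewer curves continue meromorphically to a neighbourhood
  of the real point of their edge.

Then for all real `τ`:

* nothing being assumed about the continuation of `L`, there is `κ < 1` such that `ε^κ ≤ |L| ≤ ε^{-κ}` at
  the point `w/2 + 1 + iτ + ε` for all small `ε > 0`;
* if `L` has a meromorphic continuation to a neighbourhood of the point `w/2 + 1 + iτ`, then it has neither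
  a zero nor a pole there. -/
theorem result (F : Type) [Field F] [NumberField F] (k : ℕ) (W : Fin k → WeierstrassCurve (𝓞 F))
    (hΔ : ∀ j, (W j).Δ ≠ 0) (hS : ∀ j, SatoTate (W j))
    (hJ : ∀ i j, i ≠ j → JointSatoTate (W i) (W j)) (a : Fin k → ℕ) (ha : a ≠ 0) (n : ℕ)
    (ρ : Representation ℂ Gal(AlgebraicClosure F/F) (Fin n → ℂ)) (hA : IsArtin ρ)
    (hi : ρ.IsIrreducible)
    (h : curves a ≤ 2 ∨ (n = 1 ∧ curves a ≤ 4) ∨ (n = 1 ∧ FewerContinue W a)) (τ : ℝ)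
    (B : HeightOneSpectrum (𝓞 F) → ℂ[X]) (hB : IsEulerFactor W a ρ B)
    (hB0 : ∀ v, (B v).eval ((q v : ℂ) ^ (-edge a τ)) ≠ 0) :
    (∀ᶠ ε : ℝ in 𝓝[>] 0, eulerProduct B (edge a τ + ε) ≠ 0) ∧
    (∃ κ : ℝ, κ < 1 ∧ ∀ᶠ ε : ℝ in 𝓝[>] 0, |size a B τ ε| ≤ κ) ∧
    ∀ Λ : ℂ → ℂ, Continues a B τ Λ → meromorphicOrderAt Λ (edge a τ) = 0 := by
  classical
  obtain ⟨σ, hσ⟩ : ∃ σ : HeightOneSpectrum (𝓞 F) → Pool.Agent.W401.Cheb.GK F,
      ∀ v, Pool.Agent.W401.Cheb.IsFrob v (σ v) := by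
    choose σ hσ using Pool.Agent.W540.BE.exists_isFrob (F := F)
    exact ⟨σ, hσ⟩
  have hN := Pool.Agent.TH553.RS.sysF F
  have hx : ∀ j v, |Pool.Agent.Y792.EP.cosv (W j) v| ≤ 1 := fun j v =>
    Pool.Agent.Y792.EP.abs_cosv (W j) v
  have hbd : ∀ (j : Fin k) (p : ℝ[X]), ∃ C : ℝ, ∀ v : HeightOneSpectrum (𝓞 F),
      |p.eval (Pool.Agent.Y792.EP.cosv (W j) v)| ≤ C := fun j p =>
    Pool.Agent.Y792.EP.bd_eval (hx j) p
  have hS1 : ∀ j, Pool.Agent.Y792.EP.ST1 (Pool.Agent.W540.BE.nm F)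
      (Pool.Agent.Y792.EP.cosv (W j)) := by
    intro j m hm
    obtain ⟨C, hC⟩ := hbd j (Pool.Agent.Y792.EP.Uc m)
    exact conv hC (chi_eq (W j) (hΔ j) m) (hS j m hm)
  have hJ1 : ∀ i j, i ≠ j → Pool.Agent.Y792.EP.JT (Pool.Agent.W540.BE.nm F)
      (Pool.Agent.Y792.EP.cosv (W i)) (Pool.Agent.Y792.EP.cosv (W j)) := by
    intro i j hij m l hml
    obtain ⟨C, hC⟩ := Pool.Agent.TH553.RS.Bd.mul (hbd i (Pool.Agent.Y792.EP.Uc m))
      (hbd j (Pool.Agent.Y792.EP.Uc l))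
    refine conv hC ?_ (hJ i j hij m l hml)
    filter_upwards [chi_eq (W i) (hΔ i) m, chi_eq (W j) (hΔ j) l] with v h1 h2
    rw [h1, h2]
  have hsz : ∀ (b : Fin k → ℕ) (n : ℕ)
      (ρ : Representation ℂ Gal(AlgebraicClosure F/F) (Fin n → ℂ)), IsArtin ρ → ∀ (τ : ℝ)
      (B : HeightOneSpectrum (𝓞 F) → ℂ[X]), IsEulerFactor W b ρ B →
      (∀ v, (B v).eval ((q v : ℂ) ^ (-edge b τ)) ≠ 0) →
      (∀ᶠ ε : ℝ in 𝓝[>] 0, eulerProduct B (edge b τ + ε) ≠ 0) ∧
      Tendsto (fun ε : ℝ => Pool.Agent.TH553.RS.qt (Pool.Agent.W540.BE.nm F)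
        (fun v => (∏ j, (Pool.Agent.Y792.EP.Uc (b j)).eval
          (Pool.Agent.Y792.EP.cosv (W j) v)) * Pool.Agent.TH553.RS.vr σ ρ τ v) ε -
        size b B τ ε) (𝓝[>] 0) (𝓝 0) := by
    intro b n ρ hρ τ B hB hB0
    exact Pool.Agent.Y792.EP.size_prod W hΔ b hρ τ B hB hB0 (eulerProduct B)
      (fun s _ => rfl) σ hσ
  have hcont : ∀ (b : Fin k → ℕ) (B : HeightOneSpectrum (𝓞 F) → ℂ[X]) (τ : ℝ) (Λ : ℂ → ℂ),
      (∀ᶠ ε : ℝ in 𝓝[>] 0, eulerProduct B (edge b τ + ε) ≠ 0) → Continues b B τ Λ →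
      ∃ m : ℤ, meromorphicOrderAt Λ (edge b τ) = m ∧
        Tendsto (size b B τ) (𝓝[>] 0) (𝓝 (-(m : ℝ))) := by
    intro b B τ Λ hne hΛ
    have h3 : ∀ᶠ ε : ℝ in 𝓝[>] 0, Λ (edge b τ + ε) = eulerProduct B (edge b τ + ε) := by
      filter_upwards [(Pool.Agent.H341R2.path_tendsto' (edge b τ)).eventually hΛ.2,
        self_mem_nhdsWithin] with ε h1 h2
      have hε : (0 : ℝ) < ε := h2
      refine h1 ?_
      simp only [edge, Complex.add_re, Complex.ofReal_re, Complex.one_re, Complex.mul_re,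
        Complex.I_re, Complex.I_im, Complex.ofReal_im]
      linarith
    obtain ⟨m, h4, h5⟩ := Pool.Agent.W540.BE.order_of_size hΛ.1 (by
      filter_upwards [hne, h3] with ε h6 h7
      rw [h7]
      exact h6)
    refine ⟨m, h4, h5.congr' ?_⟩
    filter_upwards [h3] with ε h6
    rw [h6]
    rfl
  have hAO : Pool.Agent.TH553.RS.Open ρ := hA
  obtain ⟨V, hV⟩ := Pool.Agent.Y792.EP.fin_vc hAO σ τ
  -- the means
  have key : ∀ U : Ultrafilter ℝ, (U : Filter ℝ) ≤ 𝓝[>] 0 →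
      |Pool.Agent.TH553.RS.M (Pool.Agent.W540.BE.nm F) U fun v =>
        (∏ j, (Pool.Agent.Y792.EP.Uc (a j)).eval (Pool.Agent.Y792.EP.cosv (W j) v)) *
          Pool.Agent.TH553.RS.vr σ ρ τ v| < 1 := by
    intro U hU
    refine Pool.Agent.Y792.EP.strict hN hU hx hS1 hJ1 a (by
      by_contra hcon
      push Not at hcon
      exact ha (funext hcon)) (z := Pool.Agent.TH553.RS.vc σ ρ τ)
      ⟨n, fun v => by
        rw [abs_norm]
        exact Pool.Agent.TH553.RS.norm_vc σ hAO τ v⟩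
      (Pool.Agent.Y792.EP.norm_vc_irr hAO hi σ hσ τ hU).le hV ?_
    rcases h with h | ⟨rfl, h⟩ | ⟨rfl, h⟩
    · exact Or.inl h
    · exact Or.inr (Or.inl ⟨h, Pool.Agent.Y792.EP.norm_vc_one hAO σ τ⟩)
    · refine Or.inr (Or.inr ⟨Pool.Agent.Y792.EP.norm_vc_one hAO σ τ, fun b hb hb3 => ?_⟩)
      have hmem : ∀ (c : Fin k → ℕ) j, j ∈ Pool.Agent.Y792.EP.sp c ↔ c j ≠ 0 := fun c j => by
        simp [Pool.Agent.Y792.EP.sp]
      obtain ⟨B', Λ, h1, h2, h3⟩ := h b (fun j hj => by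
          by_contra hbj
          exact ((hmem a j).1 (hb.1 ((hmem b j).2 hbj))) hj) (by
          obtain ⟨j, hj, hj'⟩ := Finset.exists_of_ssubset hb
          refine ⟨j, (hmem a j).1 hj, ?_⟩
          by_contra hbj
          exact hj' ((hmem b j).2 hbj)) hb3
      have hT : IsArtin (Representation.trivial ℂ Gal(AlgebraicClosure F/F) (Fin 1 → ℂ)) :=
        ⟨⊤, isOpen_univ, fun u _ => rfl⟩
      obtain ⟨g1, g2⟩ := hsz b 1 _ hT 0 B' h1 h2
      obtain ⟨m, -, g3⟩ := hcont b B' 0 Λ g1 h3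
      refine ⟨-m, Pool.Agent.TH553.RS.M_of_tendsto hU ?_⟩
      have g4 := g2.add g3
      rw [zero_add] at g4
      push_cast
      refine g4.congr fun ε => ?_
      rw [sub_add_cancel]
      congr 1
      funext v
      have e1 : Pool.Agent.TH553.RS.vr σ
          (Representation.trivial ℂ Gal(AlgebraicClosure F/F) (Fin 1 → ℂ)) 0 v = 1 := by
        have e2 : (Representation.trivial ℂ Gal(AlgebraicClosure F/F) (Fin 1 → ℂ)) (σ v)⁻¹ =
            LinearMap.id := LinearMap.ext fun x => rfl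
        unfold Pool.Agent.TH553.RS.vr Pool.Agent.TH553.RS.vc Representation.character
        rw [e2, LinearMap.trace_id]
        simp
      rw [e1, mul_one]
  obtain ⟨s1, s2⟩ := hsz a n ρ hA τ B hB hB0
  have hlim : ∀ U : Ultrafilter ℝ, (U : Filter ℝ) ≤ 𝓝[>] 0 →
      ∃ c, |c| < 1 ∧ Tendsto (size a B τ) U (𝓝 c) := by
    intro U hU
    refine ⟨_, key U hU, ?_⟩
    have hb1 : Pool.Agent.TH553.RS.Bd fun v => (∏ j, (Pool.Agent.Y792.EP.Uc (a j)).eval
        (Pool.Agent.Y792.EP.cosv (W j) v)) * Pool.Agent.TH553.RS.vr σ ρ τ v :=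
      (Pool.Agent.Y792.EP.bd_prod hx Finset.univ fun j => Pool.Agent.Y792.EP.Uc (a j)).mul
        (Pool.Agent.TH553.RS.bd_vr σ hAO τ)
    have h1 := (Pool.Agent.TH553.RS.M_lim hN hU hb1).sub (s2.mono_left hU)
    rw [sub_zero] at h1
    refine h1.congr fun ε => ?_
    ring
  refine ⟨s1, Pool.Agent.Y792.EP.uniform_lt hlim, fun Λ hΛ => ?_⟩
  obtain ⟨m, g1, g2⟩ := hcont a B τ Λ s1 hΛ
  obtain ⟨U, hU⟩ := Ultrafilter.exists_le (𝓝[>] (0 : ℝ))
  obtain ⟨c, hc, hc2⟩ := hlim U hU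
  have h1 := tendsto_nhds_unique hc2 (g2.mono_left hU)
  rw [h1, abs_neg] at hc
  have h2 : |m| < 1 := by exact_mod_cast hc
  rw [g1, Int.abs_lt_one_iff.1 h2]
  rfl

end
end Pool.Agent.Results.MP_7193be_nt.EllipticProductsEdge
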