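import Pool.Agent.Y773.AB.Fin

/-!
# Hasse-Weil L-functions of large abelian extensions of an imaginary quadratic field

Let `K` be an imaginary quadratic field, `𝔮` an ideal, `E/K` an abelian extension whose Artin map is
defined modulo `𝔮` (a subfield of the ray class field), and `X = Spec 𝓞_E[1/n]`, where the primes
dividing `𝔮` divide `n`.  If `n` is divisible by all primes which ramify in `E/ℚ`, then `X` is finite
and etale over `ℤ[1/n]` (dimension zero).  The Hasse-Weil L-function is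
`L(0;X,s) = ∏_{P ∤ n} (1 - N(P)^(-s))⁻¹`, `P` over the primes of `E`.

We prove, without any hypothesis on zeros: if `[E:K] ≥ N(𝔮)^δ` with a fixed `δ > 2/3`, then the
proportion of the zeros of this one function with `T < Im s ≤ 2T` (with multiplicity) which are on
the critical line is at least `2 - δ/2 - cot(δ/√2)/√2 - ε` for `(log N(𝔮))² ≤ T ≤ N(𝔮)^η`, as soon
as `N(𝔮)` is large, uniformly in `E` and in `n`.  The limits of the constant are `0.2794` for `δ → 2/3` and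
`0.6725` for `δ → 1`.  The same proportion holds for the *simple* critical zeros of the factors of
`L(0;X,s)`, the L-functions of the characters of `Gal(E/K)`, among all of their zeros.

Proof.  All characters of `Gal(E/K)` are characters of the ray class group modulo `𝔮`; by Chebotarev
the Artin map is onto (library of helpers 352 and 401), so that they are exactly the characters of a
quotient of index at most `N(𝔮)^(1-δ)`.  Mean squares of the prime sums over this quotient (a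
Brun-Titchmarsh upper bound is used for the ideals of norm larger than `N(𝔮)^δ`; the ramified
characters are primitive for various moduli dividing `𝔮`), the explicit formula uniform in `𝔮`, and the
trace inequality for the zeros with a kernel of Montgomery-Taylor type which is optimal for the
shorter support.  The characters which are trivial on the principal ideals (at most the class number
many) are estimated trivially.
-/

set_option autoImplicit false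

open NumberField

namespace Pool.Agent.Results.MP_7193be_nt.LargeAbelianOverQuadratic

/-- `art` is the Artin map of the abelian extension `E/K` with modulus `𝔮` (`K` has no real place):
it is multiplicative on the ideals prime to `𝔮`; at the primes `P` of `E` above a prime `𝔭` which is
prime to `𝔮` the inertia group is trivial and `art 𝔭` is the Frobenius automorphism; and it is
trivial on the principal ideals `(x)` with `x ≡ 1` modulo `𝔮`.  (By class field theory there is such a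
`𝔮`, the conductor, for every abelian extension.) -/
structure IsArtinMap {K E : Type} [Field K] [NumberField K] [Field E] [NumberField E] [Algebra K E]
    (𝔮 : Ideal (𝓞 K)) (art : Ideal (𝓞 K) → (E ≃ₐ[K] E)) : Prop where
  mul : ∀ 𝔞 𝔟 : Ideal (𝓞 K), IsCoprime 𝔞 𝔮 → IsCoprime 𝔟 𝔮 → art (𝔞 * 𝔟) = art 𝔞 * art 𝔟
  unramified : ∀ 𝔭 : Ideal (𝓞 K), Prime 𝔭 → IsCoprime 𝔭 𝔮 → ∀ P : Ideal (𝓞 E), P.IsPrime →
    (∀ x ∈ 𝔭, algebraMap (𝓞 K) (𝓞 E) x ∈ P) →
    ∀ g : E ≃ₐ[K] E, (∀ x : 𝓞 E, g • x - x ∈ P) → g = 1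
  frobenius : ∀ 𝔭 : Ideal (𝓞 K), Prime 𝔭 → IsCoprime 𝔭 𝔮 → ∀ P : Ideal (𝓞 E), P.IsPrime →
    (∀ x ∈ 𝔭, algebraMap (𝓞 K) (𝓞 E) x ∈ P) → ∀ x : 𝓞 E, art 𝔭 • x - x ^ Ideal.absNorm 𝔭 ∈ P
  principal : ∀ x : 𝓞 K, x - 1 ∈ 𝔮 → art (Ideal.span {x}) = 1

/-- `Z` is the continuation of the Hasse-Weil L-function `L(0;X,s)` of `X = Spec 𝓞_E[1/n]`: analytic
outside `s = 1`, and equal to the product of `(1 - N(P)^(-s))⁻¹` over the primes `P` of `E` which do
not contain `n` if `Re s > 1` -/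
def IsHasseWeil (E : Type) [Field E] [NumberField E] (n : ℕ) (Z : ℂ → ℂ) : Prop :=
  (∀ s : ℂ, s ≠ 1 → AnalyticAt ℂ Z s) ∧
    ∀ s : ℂ, 1 < s.re → HasProd (fun P : {P : Ideal (𝓞 E) // Prime P ∧ (n : 𝓞 E) ∉ P} =>
      (1 - ((Ideal.absNorm (P : Ideal (𝓞 E)) : ℕ) : ℂ) ^ (-s))⁻¹) (Z s)

/-- `F` is the continuation of the L-function of the character `χ` of `Gal(E/K)` without the Euler
factors at the primes containing `n` -/
def IsArtinL {K E : Type} [Field K] [NumberField K] [Field E] [NumberField E] [Algebra K E]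
    (art : Ideal (𝓞 K) → (E ≃ₐ[K] E)) (n : ℕ) (χ : (E ≃ₐ[K] E) →* ℂˣ) (F : ℂ → ℂ) : Prop :=
  (∀ s : ℂ, s ≠ 1 → AnalyticAt ℂ F s) ∧
    ∀ s : ℂ, 1 < s.re → HasProd (fun 𝔭 : {𝔭 : Ideal (𝓞 K) // Prime 𝔭 ∧ (n : 𝓞 K) ∉ 𝔭} =>
      (1 - ((χ (art 𝔭) : ℂˣ) : ℂ) * ((Ideal.absNorm (𝔭 : Ideal (𝓞 K)) : ℕ) : ℂ) ^ (-s))⁻¹) (F s)

/-- the zeros of `F` in the open critical strip with `T₁ < Im s ≤ T₂` -/
def zeros (F : ℂ → ℂ) (T₁ T₂ : ℝ) : Set ℂ :=
  {s : ℂ | 0 < s.re ∧ s.re < 1 ∧ T₁ < s.im ∧ s.im ≤ T₂ ∧ F s = 0}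

/-- the number of these zeros, with multiplicity -/
noncomputable def N (F : ℂ → ℂ) (T₁ T₂ : ℝ) : ℕ := ∑ᶠ s ∈ zeros F T₁ T₂, analyticOrderNatAt F s

/-- the number of those with `Re s = 1/2`, with multiplicity -/
noncomputable def N₀ (F : ℂ → ℂ) (T₁ T₂ : ℝ) : ℕ :=
  ∑ᶠ s ∈ {s : ℂ | s ∈ zeros F T₁ T₂ ∧ s.re = 1 / 2}, analyticOrderNatAt F s

/-- the number of the simple zeros with `Re s = 1/2` -/
noncomputable def Nsimple (F : ℂ → ℂ) (T₁ T₂ : ℝ) : ℕ :=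
  {s : ℂ | s ∈ zeros F T₁ T₂ ∧ s.re = 1 / 2 ∧ analyticOrderNatAt F s = 1}.ncard

/-- the number of distinct zeros -/
noncomputable def Ndistinct (F : ℂ → ℂ) (T₁ T₂ : ℝ) : ℕ := (zeros F T₁ T₂).ncard

/-- the constant `δ/2 + cot(δ/√2)/√2`, equal to `1.3275` for `δ = 1` and `1.7205` for `δ = 2/3` -/
noncomputable def c (δ : ℝ) : ℝ := δ / 2 + Real.cot (δ / Real.sqrt 2) / Real.sqrt 2

/-- **The theorem.**  `K` is an imaginary quadratic field, `2/3 < δ < 1` and `ε > 0`. -/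
theorem result (K : Type) [Field K] [NumberField K] [IsTotallyComplex K]
    (hK : Module.finrank ℚ K = 2) (δ : ℝ) (hδ : 2 / 3 < δ) (hδ1 : δ < 1) (ε : ℝ) (hε : 0 < ε) :
    ∃ η X₀ : ℝ, 0 < η ∧ ∀ 𝔮 : Ideal (𝓞 K), 𝔮 ≠ ⊥ → 𝔮 ≠ ⊤ → X₀ ≤ (Ideal.absNorm 𝔮 : ℝ) →
      ∀ (E : Type) [Field E] [NumberField E] [Algebra K E] [IsAbelianGalois K E]
        (art : Ideal (𝓞 K) → (E ≃ₐ[K] E)), IsArtinMap 𝔮 art →
      (Ideal.absNorm 𝔮 : ℝ) ^ δ ≤ Module.finrank K E →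
      ∀ n : ℕ, 1 ≤ n → (∀ 𝔭 : Ideal (𝓞 K), Prime 𝔭 → 𝔭 ∣ 𝔮 → (n : 𝓞 K) ∈ 𝔭) →
      ∃ (Z : ℂ → ℂ) (L : ((E ≃ₐ[K] E) →* ℂˣ) → ℂ → ℂ),
        IsHasseWeil E n Z ∧ (∀ χ, IsArtinL art n χ (L χ)) ∧ (∀ s : ℂ, Z s = ∏ᶠ χ, L χ s) ∧
        ∀ T : ℝ, (Real.log (Ideal.absNorm 𝔮)) ^ 2 ≤ T → T ≤ (Ideal.absNorm 𝔮 : ℝ) ^ η →
          (zeros Z T (2 * T)).Finite ∧
          (Module.finrank K E : ℝ) * T ≤ N Z T (2 * T) ∧
          (2 - c δ - ε) * (N Z T (2 * T) : ℝ) ≤ N₀ Z T (2 * T) ∧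
          N Z T (2 * T) = ∑ᶠ χ, N (L χ) T (2 * T) ∧
          (2 - c δ - ε) * (N Z T (2 * T) : ℝ) ≤ ((∑ᶠ χ, Nsimple (L χ) T (2 * T) : ℕ) : ℝ) ∧
          (3 - c δ - ε) / 2 * (N Z T (2 * T) : ℝ) ≤
            ((∑ᶠ χ, Ndistinct (L χ) T (2 * T) : ℕ) : ℝ) := by
  obtain ⟨η, X₀, hη, -, H⟩ := Pool.Agent.Y773.AB.finalZ K hK δ hδ hδ1 ε hε
  refine ⟨η, X₀, hη, fun 𝔮 hbot htop hX E _ _ _ _ art hart hE n hn hrad => ?_⟩
  obtain ⟨L, Z, h1, h2, h3, h4, h5, h6⟩ := H 𝔮 hbot htop hX E art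
    ⟨hart.mul, fun 𝔭 h𝔭 hc P hP => ⟨hart.unramified 𝔭 h𝔭 hc P hP.1 hP.2,
      hart.frobenius 𝔭 h𝔭 hc P hP.1 hP.2⟩, hart.principal⟩ hE n hn hrad
  exact ⟨Z, L, ⟨h3, h4⟩, fun χ => ⟨h1 χ, h2 χ⟩, h5, h6⟩

end Pool.Agent.Results.MP_7193be_nt.LargeAbelianOverQuadratic
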