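import Pool.Agent.Y762.EG.FinD
import Pool.Agent.Y762.EG.Place

/-!
# The Hasse-Weil L-functions of the powers of `y² = x³ - x` over the ray class fields of `ℚ(i)`

Let `E : y² = x³ - x`, let `K` be the ray class field of `ℚ(i)` of modulus `q`, `2 + 2i ∣ q`, and let
`M ≥ 1` be an integer divisible by the primes of `K` above `q`.  Then `𝓞 K [1/M]` is etale over
`ℤ[1/M]`, and `X = E^g ⊗ 𝓞 K [1/M]` is a projective and smooth scheme over `ℤ[1/M]`, of relative
dimension `g`.  For a place `v ∤ M` of `K` let `α_v, β_v` be the roots of `T² - a_v T + N v`, where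
`a_v = N v - #{(x, y) mod v : y² = x³ - x}`.  By the Künneth formula
`L(i; X, s) = ∏_{v ∤ M} ∏_{a + b = i} (1 - α_v^a β_v^b (N v)^(-s))^(-C(g,a) C(g,b))`.

We prove for all `q`, `M`, `g` and all odd `i < 2g` that `L(i; X, s)` is entire and that, without any
hypothesis, at least the proportion `2 - c(h) - ε` of its zeros `s` with `i/2 < Re s < i/2 + 1`,
`T < Im s ≤ 2T`, counted with multiplicity, lies on the critical line `Re s = (i+1)/2`, as soon as
`T ≥ C (1 + √(log(N(q) n)))` and `(N(q) (√n + T)²)^h ≤ N(q) √n T`, where `n = min(i, 2g-i)`; here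
`1/2 < h ≤ 1` and `ε > 0` are arbitrary, `C` depends on `h` and `ε` only, and `2 - c(1) = 0.67250…`.
The three parameters `q`, `g` and `T` are independent of each other, and their sizes may tend to
infinity in any way allowed by the second condition; for `h = 1 - δ`, with a small absolute constant
`δ`, the proportion is at least 67.25 per cent, and the second condition holds for example if `√n` and `T`
differ at most by a factor `(N(q) n T)^(δ/2)` and one of the parameters is large, in particular if `N(q)`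
is larger than a certain fixed power of `n T`.  For `q = 2 + 2i` and `T` near `√n` (the starting file
PowersCM6725) and for `g = 1` and `T ≤ N(q)^η` (the starting file HeckeEveryModulus) the theorem is in
essence known.
There is no average over a family of varieties.

Proof.  Put `i = 2m+1`.  Gauss' formula for `a_v`, class field theory for `K` (the Artin map is given
with `K`) and the theta series with harmonic polynomials give
`L(i; X, s) = ∏_{l ≤ m} ∏_χ (L(s - i/2, ψ^(2l+1) χ) L(s - i/2, ψ^(2l+1) χ')) ^ {C(g,m-l) C(g,m+1+l)}`,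
up to Euler factors at the places above `M`, without zeros for `Re s > i/2`; here `χ` runs over the
characters modulo `q`, `χ'` over those modulo the conjugate of `q`, with `χ = 1` on the units.  The
multiplicities form a decreasing sequence of width `√n`, by an estimate of the tail of a Gaussian
sum and by partial summation it suffices to consider the L-functions with `l < J` and all `χ`, where
`J` is between `δ √n` and `√n / δ`.  For these there is a trace inequality for the zeros weighted by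
test functions of Montgomery-Taylor type (no hypothesis on zeros off the line), the explicit
formula, uniform in all parameters, and a mean square over `l < J`, `χ` and the height: the Gaussian
integers `a` with `N(a) ≤ (N(q) J T)^(1-ε)`, in a fixed class modulo `q` and up to units, are well
spaced on the cylinder of the points `(arg a, log |a|)` at the distances `1/J` and `1/T`.
-/

set_option autoImplicit false

open Complex NumberField IsDedekindDomain

namespace Pool.Agent.Results.MP_7193be_nt.PowersRayClassFields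

/-- `K` is the ray class field of `ℚ(i)` of modulus `q`: `ι` embeds `ℤ[i]` into the ring of integers
of `K`, and `art` is the Artin map, a homomorphism from `(ℤ[i]/q)ˣ` to the group of automorphisms of
the ring of integers of `K` (equivalently of `K`) such that
* `ℤ[i]` is the ring of invariants (so `K/ℚ(i)` is Galois and its group is the image of `art`),
* the kernel consists of the classes of the units of `ℤ[i]` (so the Galois group is the ray class
  group modulo `q`),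
* `K/ℚ(i)` is unramified outside `q`: the inertia group at every prime `v` of `K` not dividing `q`
  is trivial,
* for every prime `π` of `ℤ[i]` not dividing `q`, `art π` is the Frobenius automorphism
  `x ↦ x ^ N(π)` at all primes `v` of `K` above `π`. -/
structure IsRayClassField (q : GaussianInt) (K : Type) [Field K] [NumberField K]
    (ι : GaussianInt →+* 𝓞 K)
    (art : (GaussianInt ⧸ Ideal.span {q})ˣ →* (𝓞 K ≃+* 𝓞 K)) : Prop where
  invariants : ∀ x : 𝓞 K, (∀ u, art u x = x) ↔ x ∈ ι.range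
  kernel : ∀ u : (GaussianInt ⧸ Ideal.span {q})ˣ, art u = 1 ↔
    ∃ e : GaussianIntˣ, (u : GaussianInt ⧸ Ideal.span {q}) = Ideal.Quotient.mk _ (e : GaussianInt)
  unramified : ∀ v : HeightOneSpectrum (𝓞 K), ι q ∉ v.asIdeal →
    ∀ u, (∀ x, art u x - x ∈ v.asIdeal) → art u = 1
  frobenius : ∀ π : GaussianInt, Prime π → ∀ u : (GaussianInt ⧸ Ideal.span {q})ˣ,
    (u : GaussianInt ⧸ Ideal.span {q}) = Ideal.Quotient.mk _ π →
    ∀ v : HeightOneSpectrum (𝓞 K), ι π ∈ v.asIdeal →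
      ∀ x : 𝓞 K, art u x - x ^ π.norm.natAbs ∈ v.asIdeal

section
variable {K : Type} [Field K] [NumberField K]

/-- the Frobenius trace `a_v` of `y² = x³ - x`: the number of the residue classes modulo `v` minus the
number of the affine solutions `(x, y)` of the equation over the residue field `𝓞 K / v` -/
noncomputable def a (v : HeightOneSpectrum (𝓞 K)) : ℤ :=
  ((Ideal.absNorm v.asIdeal : ℕ) : ℤ) -
    ((Nat.card {p : (𝓞 K ⧸ v.asIdeal) × (𝓞 K ⧸ v.asIdeal) // p.2 ^ 2 = p.1 ^ 3 - p.1} : ℕ) : ℤ)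

/-- `α v`, `β v` are the roots of `T² - a_v T + N v` for every place `v` of `K` not dividing `M` -/
def FrobeniusRoots (M : ℕ) (α β : HeightOneSpectrum (𝓞 K) → ℂ) : Prop :=
  ∀ v : HeightOneSpectrum (𝓞 K), (M : 𝓞 K) ∉ v.asIdeal →
    α v + β v = (a v : ℂ) ∧ α v * β v = ((Ideal.absNorm v.asIdeal : ℕ) : ℂ)

/-- the local factor of `H^i(E^g)` at a place with `n` residue classes: the product of
`(1 - α^j β^(i-j) n^(-s))` over `0 ≤ j ≤ i` with the multiplicities `C(g, j) C(g, i-j)` -/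
noncomputable def P (g i : ℕ) (α β : ℂ) (n : ℕ) (s : ℂ) : ℂ :=
  ∏ j ∈ Finset.range (i + 1),
    (1 - α ^ j * β ^ (i - j) * (n : ℂ) ^ (-s)) ^ (g.choose j * g.choose (i - j))

end

/-- `L` is the continuation of `L(i; E^g ⊗ 𝓞 K [1/M], s) = ∏_{v ∤ M} P_i(v, s)⁻¹` to an entire
function -/
def IsHasseWeil (K : Type) [Field K] [NumberField K] (M g i : ℕ) (L : ℂ → ℂ) : Prop :=
  Differentiable ℂ L ∧ ∀ α β : HeightOneSpectrum (𝓞 K) → ℂ, FrobeniusRoots M α β →
    ∀ s : ℂ, 1 + (i : ℝ) / 2 < s.re →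
      HasProd (fun v : {v : HeightOneSpectrum (𝓞 K) // (M : 𝓞 K) ∉ v.asIdeal} =>
        (P g i (α v) (β v) (Ideal.absNorm v.1.asIdeal) s)⁻¹) (L s)

/-- the zeros of `F` with `i/2 < Re s < i/2 + 1` and `T₁ < Im s ≤ T₂` -/
def zeros (F : ℂ → ℂ) (i : ℕ) (T₁ T₂ : ℝ) : Set ℂ :=
  {s : ℂ | (i : ℝ) / 2 < s.re ∧ s.re < (i : ℝ) / 2 + 1 ∧ T₁ < s.im ∧ s.im ≤ T₂ ∧ F s = 0}

/-- the number of these zeros, counted with multiplicity -/
noncomputable def N (F : ℂ → ℂ) (i : ℕ) (T₁ T₂ : ℝ) : ℕ :=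
  ∑ᶠ s ∈ zeros F i T₁ T₂, analyticOrderNatAt F s

/-- the number of those of them with `Re s = (i+1)/2`, counted with multiplicity -/
noncomputable def N₀ (F : ℂ → ℂ) (i : ℕ) (T₁ T₂ : ℝ) : ℕ :=
  ∑ᶠ s ∈ {s : ℂ | s ∈ zeros F i T₁ T₂ ∧ s.re = ((i : ℝ) + 1) / 2}, analyticOrderNatAt F s

/-- the function of Montgomery and Taylor, `c(1) = 1.32749...` -/
noncomputable def c (h : ℝ) : ℝ := h / 2 + Real.cot (h / Real.sqrt 2) / Real.sqrt 2

open Pool.Agent.W354.HW (cnt strip line cnt_shift)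
open Pool.Agent.Y762.EG (LG LG_diff LG_NN LG_Ns LG_cnt GP GP_diff GP_ne hasProd_N line_sub)

lemma re_sub (s : ℂ) (i : ℕ) : (s - (i : ℂ) / 2).re = s.re - (i : ℝ) / 2 := by
  rw [show ((i : ℂ) / 2) = (((i : ℝ) / 2 : ℝ) : ℂ) by push_cast; rfl, Complex.sub_re,
    Complex.ofReal_re]

lemma im_sub (s : ℂ) (i : ℕ) : (s - (i : ℂ) / 2).im = s.im := by
  rw [show ((i : ℂ) / 2) = (((i : ℝ) / 2 : ℝ) : ℂ) by push_cast; rfl, Complex.sub_im,
    Complex.ofReal_im, sub_zero]

lemma zeros_eq (F G : ℂ → ℂ) (i : ℕ) (T₁ T₂ : ℝ) (hG : ∀ s : ℂ, (i : ℝ) / 2 < s.re → G s ≠ 0) :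
    zeros (fun s => F (s - (i : ℂ) / 2) * G s) i T₁ T₂ =
    {s : ℂ | s ∈ {s | s - (i : ℂ) / 2 ∈ strip T₁ T₂} ∧ F (s - (i : ℂ) / 2) = 0} := by
  ext s
  simp only [zeros, strip, Set.mem_ofPred_eq, re_sub, im_sub]
  constructor
  · rintro ⟨a, b, c, d, e⟩
    exact ⟨⟨by linarith, by linarith, c, d⟩, (mul_eq_zero.1 e).resolve_right (hG s a)⟩
  · rintro ⟨⟨a, b, c, d⟩, e⟩
    refine ⟨by linarith, by linarith, c, d, ?_⟩
    rw [e, zero_mul]

lemma line_eq (F G : ℂ → ℂ) (i : ℕ) (T₁ T₂ : ℝ) (hG : ∀ s : ℂ, (i : ℝ) / 2 < s.re → G s ≠ 0) :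
    {s : ℂ | s ∈ zeros (fun s => F (s - (i : ℂ) / 2) * G s) i T₁ T₂ ∧
      s.re = ((i : ℝ) + 1) / 2} =
    {s : ℂ | s ∈ {s | s - (i : ℂ) / 2 ∈ line T₁ T₂} ∧ F (s - (i : ℂ) / 2) = 0} := by
  rw [zeros_eq F G i T₁ T₂ hG]
  ext s
  simp only [line, strip, Set.mem_ofPred_eq, re_sub, im_sub]
  constructor
  · rintro ⟨⟨⟨a, b, c, d⟩, e⟩, f⟩
    exact ⟨⟨by linarith, c, d⟩, e⟩
  · rintro ⟨⟨a, c, d⟩, e⟩
    exact ⟨⟨⟨by linarith, by linarith, c, d⟩, e⟩, by linarith⟩

lemma order_eq {F G : ℂ → ℂ} (hF : Differentiable ℂ F) (hGd : Differentiable ℂ G) (i : ℕ) {s : ℂ}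
    (h0 : G s ≠ 0) : analyticOrderNatAt (fun s => F (s - (i : ℂ) / 2) * G s) s =
      analyticOrderNatAt (fun s => F (s - (i : ℂ) / 2)) s := by
  unfold analyticOrderNatAt
  have h1 : Differentiable ℂ (fun s => F (s - (i : ℂ) / 2)) :=
    hF.comp (differentiable_id.sub_const _)
  rw [Pool.Agent.W164.RC.order_mul_ne (h1.analyticAt s) (hGd.analyticAt s) h0]

lemma N_eq {F G : ℂ → ℂ} (hF : Differentiable ℂ F) (hGd : Differentiable ℂ G) (i : ℕ) (T₁ T₂ : ℝ)
    (hG : ∀ s : ℂ, (i : ℝ) / 2 < s.re → G s ≠ 0) :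
    N (fun s => F (s - (i : ℂ) / 2) * G s) i T₁ T₂ = cnt F (strip T₁ T₂) := by
  rw [← cnt_shift F ((i : ℂ) / 2)]
  unfold N cnt H370.mult
  rw [zeros_eq F G i T₁ T₂ hG]
  refine finsum_mem_congr rfl fun s hs => ?_
  have h1 : (i : ℝ) / 2 < s.re := by
    have h2 := hs.1.1
    rw [re_sub] at h2
    linarith
  exact order_eq hF hGd i (hG s h1)

lemma N₀_eq {F G : ℂ → ℂ} (hF : Differentiable ℂ F) (hGd : Differentiable ℂ G) (i : ℕ)
    (T₁ T₂ : ℝ) (hG : ∀ s : ℂ, (i : ℝ) / 2 < s.re → G s ≠ 0) :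
    N₀ (fun s => F (s - (i : ℂ) / 2) * G s) i T₁ T₂ = cnt F (line T₁ T₂) := by
  rw [← cnt_shift F ((i : ℂ) / 2)]
  unfold N₀ cnt H370.mult
  rw [line_eq F G i T₁ T₂ hG]
  refine finsum_mem_congr rfl fun s hs => ?_
  have h1 : (i : ℝ) / 2 < s.re := by
    have h2 := hs.1.1
    rw [re_sub] at h2
    linarith
  exact order_eq hF hGd i (hG s h1)

/-- **Main theorem.** -/
theorem result : ∀ h ε : ℝ, 1 / 2 < h → h ≤ 1 → 0 < ε → ∃ C : ℝ,
    ∀ q : GaussianInt, q ≠ 0 → (⟨2, 2⟩ : GaussianInt) ∣ q →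
    ∀ (K : Type) [Field K] [NumberField K] (ι : GaussianInt →+* 𝓞 K)
      (art : (GaussianInt ⧸ Ideal.span {q})ˣ →* (𝓞 K ≃+* 𝓞 K)), IsRayClassField q K ι art →
    ∀ M : ℕ, M ≠ 0 →
      (∀ v : HeightOneSpectrum (𝓞 K), ι q ∈ v.asIdeal → (M : 𝓞 K) ∈ v.asIdeal) →
    ∀ g i : ℕ, Odd i → i < 2 * g →
    ∃ L : ℂ → ℂ, IsHasseWeil K M g i L ∧
      ∀ T : ℝ,
        C * (1 + Real.sqrt (Real.log ((Zsqrtd.norm q : ℝ) * ((min i (2 * g - i) : ℕ) : ℝ)))) ≤ T →
        ((Zsqrtd.norm q : ℝ) * (Real.sqrt ((min i (2 * g - i) : ℕ) : ℝ) + T) ^ 2) ^ h ≤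
          (Zsqrtd.norm q : ℝ) * Real.sqrt ((min i (2 * g - i) : ℕ) : ℝ) * T →
        (zeros L i T (2 * T)).Finite ∧
        (((2 * g).choose i : ℕ) : ℝ) * (Nat.card art.range : ℝ) * T ≤ (N L i T (2 * T) : ℝ) ∧
        (2 - c h - ε) * (N L i T (2 * T) : ℝ) ≤ (N₀ L i T (2 * T) : ℝ) := by
  classical
  intro h ε hh hh1 hε
  obtain ⟨cd, pr, hprim⟩ := Pool.Agent.Y762.HK.exists_prim
  obtain ⟨C, hC, H⟩ := Pool.Agent.Y762.EG.eg_finB cd pr hprim h ε hh hh1 hε
  refine ⟨C, ?_⟩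
  intro q hq h2 K _ _ ι art hK M hM hqM g i hi hg
  obtain ⟨m, rfl⟩ := hi
  have hK' : Pool.Agent.W164.RC.IsRayClassField q K ι art :=
    ⟨hK.invariants, hK.kernel, hK.unramified, hK.frobenius⟩
  have hFd := LG_diff cd pr hprim hq g m
  have hGd := GP_diff q ι M hM g (2 * m + 1)
  have hGn : ∀ s : ℂ, ((2 * m + 1 : ℕ) : ℝ) / 2 < s.re → GP q ι M hM g (2 * m + 1) s ≠ 0 :=
    fun s hs => GP_ne h2 ι M hM g (2 * m + 1) hs
  refine ⟨fun s => LG pr q g m (s - ((2 * m + 1 : ℕ) : ℂ) / 2) * GP q ι M hM g (2 * m + 1) s,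
    ⟨?_, ?_⟩, ?_⟩
  · exact (hFd.comp (differentiable_id.sub_const _)).mul hGd
  · intro α β hαβ s hs
    exact hasProd_N cd pr hprim hq h2 hK' M hM hqM α β hαβ g m hs
  · intro T hT hX
    set n : ℕ := min (2 * m + 1) (2 * g - (2 * m + 1)) with hn
    have hQ1 : 1 ≤ ‖Pool.Agent.H304R3.HK.tc q‖ := Pool.Agent.H304R3.HK.one_le_norm_tc hq
    set Q : ℝ := ‖Pool.Agent.H304R3.HK.tc q‖ with hQ
    have hnq : (Zsqrtd.norm q : ℝ) = Q ^ 2 := (Pool.Agent.H304R3.HK.tc_star_mul q).symm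
    rw [hnq] at hT hX
    have hn0 : (0 : ℝ) ≤ Real.sqrt n := Real.sqrt_nonneg _
    have hT1 : 1 ≤ T := by
      refine le_trans ?_ hT
      have := Real.sqrt_nonneg (Real.log (Q ^ 2 * (n : ℝ)))
      nlinarith
    have hXa : Real.exp (2 * h * Real.log (Q * (Real.sqrt n + T))) ≤ Q ^ 2 * Real.sqrt n * T := by
      refine le_trans (le_of_eq ?_) hX
      have hlog : 2 * Real.log (Q * (Real.sqrt n + T)) =
          Real.log (Q ^ 2 * (Real.sqrt n + T) ^ 2) := by
        rw [← mul_pow, Real.log_pow]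
        push_cast
        ring
      rw [Real.rpow_def_of_pos (by positivity), ← hlog]
      congr 1
      ring
    obtain ⟨k1, k2⟩ := H q g m T hq h2 hg hT hXa
    have e1 := LG_NN cd pr hprim hq g m hT1
    have e2 := LG_Ns cd pr hprim hq g m hT1
    rw [N_eq hFd hGd (2 * m + 1) T (2 * T) hGn, N₀_eq hFd hGd (2 * m + 1) T (2 * T) hGn]
    refine ⟨?_, ?_, ?_⟩
    · rw [zeros_eq _ _ (2 * m + 1) T (2 * T) hGn]
      have hfin := (LG_cnt cd pr hprim hq g m hT1 subset_rfl).2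
      refine (hfin.preimage (f := fun s : ℂ => s - ((2 * m + 1 : ℕ) : ℂ) / 2)
        ((sub_left_injective).injOn)).subset ?_
      rintro s ⟨hs1, hs2⟩
      exact ⟨hs1, hs2⟩
    · have hcard := Pool.Agent.W164.RC.ray_card hq h2 hK'
      have hcard' : (Nat.card art.range : ℝ) = (H385.phiQ q : ℝ) / 4 := by
        have : ((4 * Nat.card art.range : ℕ) : ℝ) = (H385.phiQ q : ℝ) := by exact_mod_cast hcard
        push_cast at this
        linarith
      rw [hcard', Pool.Agent.Y762.EG.cnt_eq', Pool.Agent.Y762.EG.strip_eq', e1]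
      exact k2
    · rw [Pool.Agent.Y762.EG.cnt_eq', Pool.Agent.Y762.EG.strip_eq', Pool.Agent.Y762.EG.line_eq', e1]
      have e3 : ((∑ l ∈ Finset.range (m + 1), Pool.Agent.W354.HW.mu g m l *
          (Pool.Agent.Y762.EG.SS pr q (2 * l + 1) T +
            Pool.Agent.Y762.EG.SS pr (star q) (2 * l + 1) T) : ℕ) : ℝ) ≤
          (Pool.Agent.H82R3.EK.cnt (LG pr q g m) (Pool.Agent.H82R3.EK.line T (2 * T)) : ℝ) := by
        exact_mod_cast e2
      refine le_trans ?_ e3
      refine le_trans (le_of_eq ?_) k1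
      unfold c Pool.Agent.Y762.cH
      ring

end Pool.Agent.Results.MP_7193be_nt.PowersRayClassFields
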