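import Pool.Agent.Y722.TP.Complete

/-!
# Tensor powers of the cohomology of random hypersurfaces, times any fixed motive

`X` runs through the members of a linear system of hypersurfaces in `ℙⁿ`, `T` is the part of the
middle cohomology of `X` that varies with `X`, and `N` is a fixed motive, for example `Hʲ(Y)` for a fixed
variety `Y`.  The L-functions `L(i; X^k × Y, s)` are products of translates of the L-functions of
`T^{⊗ a} ⊗ Hʲ(Y)`, `a ≤ k`.
-/

set_option autoImplicit false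

namespace Pool.Agent.Results.MP_7193be_nt.RandomTensorPowers

open Pool.Agent.Y722.HS Pool.Agent.Y722.LS Pool.Agent.Y722.TM Pool.Agent.Y722.TP

/-- Mean square over the members of height at most `H`: near the edge line the L-function of
`T^{⊗ k} ⊗ N` is the `(k-1)!!`-th power of the L-function of `N` (translated) if `k` is even, and
without zeros and poles if `k` is odd.  The point may be chosen for every member of the system: at a
distance between `1 / log H` and `1` from the edge line and of height at most `T` in absolute value.  The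
constant does not depend on `N`, only on its rank. -/
theorem result {n d : ℕ} (hn : 2 ≤ n) (hd : 1 ≤ d) {ι : Type} [Fintype ι] [DecidableEq ι]
    (f : ι → MvPolynomial (Fin (n + 1)) ℤ) (hf : ∀ i, (f i).IsHomogeneous d) (c₀ : ι → ℤ)
    (hs : IsSmooth (lform f (fun i => (c₀ i : ℂ)))) (p₀ k : ℕ)
    (hsep : ∀ p : ℕ, p.Prime → p₀ ≤ p → SepK (2 * k) f p) (u : ℕ → ℝ) (C₀ : ℝ)
    (hZ : ∀ p : ℕ, p.Prime → p₀ ≤ p → zn f p ≤ C₀ * (p : ℝ) ^ (((n : ℝ) - 1) / 2))
    (hu : ∀ p : ℕ, p.Prime → p₀ ≤ p →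
      |zn f p + ((p : ℝ) ^ n - 1) / ((p : ℝ) - 1) - u p| ≤ C₀ * (p : ℝ) ^ ((n : ℝ) / 2 - 1))
    (r b : ℕ) : ∃ C : ℝ, ∀ (w : ℝ) (β : ℕ → Fin r → ℂ),
      (∀ p : ℕ, p.Prime → ∀ i, ‖β p i‖ ≤ (p : ℝ) ^ (w / 2)) →
      ∀ H : ℕ, 2 ≤ H → ∀ T : ℝ, 0 ≤ T → ∀ S ⊆ box ι H, ∀ (γ : (ι → ℤ) → ℕ → Fin b → ℂ)
      (ε t : (ι → ℤ) → ℝ), (∀ c ∈ S, IsFrobP f u k w β b c (γ c)) →
      (∀ c ∈ S, 1 / Real.log H ≤ ε c ∧ ε c ≤ 1) → (∀ c ∈ S, |t c| ≤ T) →
      ∑ c ∈ S, (Real.log ‖LP (γ c) ((k * ((n : ℂ) - 1) + w) / 2 + 1 + ε c + t c * Complex.I)‖ -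
        gm k * Real.log ‖LP β ((w : ℂ) / 2 + 1 + ε c + t c * Complex.I)‖) ^ 2 ≤
        C * (1 + T) * (box ι H).card :=
  powers hn hd f hf c₀ hs p₀ k hsep u C₀ hZ hu r b

end Pool.Agent.Results.MP_7193be_nt.RandomTensorPowers
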